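import Mathlib
import Pool.Agent.H78.PB.Stm
import Pool.Agent.N892.BW.LQT_A
import Pool.Agent.N892.BW.JJ
import Pool.Agent.N892.BW.IBP
import Pool.Agent.N892.BW.LAY

/-!
Project PB: LQT for real exponents, the dual bound with local square averages.
(helper45, after N892/BW LQT by helper862 and LQ by helper615)
-/

set_option autoImplicit false

open MeasureTheory ENNReal Filter Topology Complex
open scoped ComplexConjugate

namespace Pool.Agent.H45.PB.LQT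

open Pool.Agent.N892.BW Pool.Agent.H78.PB

theorem qr_facts {m : ℝ} (hm : Rg m) : 1 ≤ qr m ∧ qr m ≤ 2 ∧ 2 / qr m = (2 * m - 1) / m := by
  have h1 : 11 / 10 ≤ m := hm.1
  have h0 : 0 < m := by linarith
  have h2 : (0 : ℝ) < 2 * m - 1 := by linarith
  unfold qr
  refine ⟨?_, ?_, ?_⟩
  · rw [le_div_iff₀ h2]
    linarith
  · rw [div_le_iff₀ h2]
    linarith
  · field_simp

theorem qr_conj {m : ℝ} (hm : Rg m) : (2 * m).HolderConjugate (qr m) := by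
  have h1 : (1 : ℝ) < 2 * m := by linarith [hm.1]
  have h2 : qr m = Real.conjExponent (2 * m) := by
    unfold qr Real.conjExponent
    rfl
  rw [h2]
  exact Real.HolderConjugate.conjExponent h1

/-- a finite bound -/
theorem fin {m : ℝ} {n : ℕ} (hm : Rg m) (hn : 1 ≤ n) {B D : ℝ} {ψ : ℂ → ℝ} (hψ : Cut B 1 D ψ)
    {l : ℝ} (hl : l ≤ 1) {χ : ℂ → ℝ≥0∞} (hχ : Mol l χ) :
    ∃ K : ℝ, 0 ≤ K ∧ ∀ g : ℂ → ℂ, Nice g →
      ∫⁻ w, (∫⁻ y, χ y * ‖So n ψ g (w + y)‖ₑ ^ 2) ^ (qr m / 2) ≤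
        ENNReal.ofReal (K ^ (qr m)) * ∫⁻ z, ‖g z‖ₑ ^ (qr m) := by
  have hpq := qr_conj hm
  have hq0 : 0 < qr m := hpq.symm.pos
  obtain ⟨hχm, hχs, hχi⟩ := hχ
  obtain ⟨k, hk⟩ : ∃ k : ℂ → ℝ≥0∞, k = (Metric.closedBall (0 : ℂ) (D + 1)).indicator
      (fun _ => ENNReal.ofReal ((n : ℝ) / Real.pi)) := ⟨_, rfl⟩
  have hkm : Measurable k := by
    rw [hk]
    exact measurable_const.indicator Metric.isClosed_closedBall.measurableSet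
  have hK1 : ∫⁻ z, k z ≠ ⊤ := by
    rw [hk, lintegral_indicator Metric.isClosed_closedBall.measurableSet, setLIntegral_const]
    exact (ENNReal.mul_lt_top ENNReal.ofReal_lt_top
      (isCompact_closedBall (0 : ℂ) (D + 1)).measure_lt_top).ne
  refine ⟨(∫⁻ z, k z).toReal, ENNReal.toReal_nonneg, ?_⟩
  intro g hg
  rw [← ENNReal.ofReal_rpow_of_nonneg ENNReal.toReal_nonneg hq0.le, ENNReal.ofReal_toReal hK1]
  refine le_trans (lintegral_mono fun w => ?_) (LQT.young hpq hkm hg.1.enorm)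
  obtain ⟨V, hV⟩ : ∃ V : ℝ≥0∞, V = ∫⁻ z, k (w - z) * ‖g z‖ₑ := ⟨_, rfl⟩
  rw [← hV]
  have h1 : ∀ y, χ y * ‖So n ψ g (w + y)‖ₑ ^ 2 ≤ χ y * V ^ 2 := by
    intro y
    by_cases hy : l < ‖y‖
    · rw [hχs y hy, zero_mul, zero_mul]
    · rw [not_lt] at hy
      refine mul_le_mul' le_rfl (pow_le_pow_left' ?_ 2)
      unfold So
      refine (enorm_integral_le_lintegral_enorm _).trans ?_
      rw [hV]
      refine lintegral_mono fun z => ?_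
      rw [enorm_mul]
      refine mul_le_mul' ?_ le_rfl
      rw [hk]
      by_cases hz : w - z ∈ Metric.closedBall (0 : ℂ) (D + 1)
      · rw [Set.indicator_of_mem hz, ← ofReal_norm]
        exact ENNReal.ofReal_le_ofReal (LQ.kk_bd hn hψ _)
      · rw [Set.indicator_of_notMem hz]
        have h2 : ψ (w + y - z) = 0 := by
          by_contra hcon
          have h3 := (hψ.2.2.1 _ hcon).2
          apply hz
          rw [mem_closedBall_zero_iff]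
          have h4 : w - z = (w + y - z) - y := by ring
          calc ‖w - z‖ = ‖(w + y - z) - y‖ := by rw [← h4]
            _ ≤ ‖w + y - z‖ + ‖y‖ := norm_sub_le _ _
            _ ≤ D + 1 := by linarith
        unfold kk
        rw [h2, Complex.ofReal_zero, mul_zero, enorm_zero]
  have h2 : ∫⁻ y, χ y * ‖So n ψ g (w + y)‖ₑ ^ 2 ≤ V ^ 2 := by
    refine (lintegral_mono h1).trans ?_
    rw [lintegral_mul_const _ hχm, hχi, one_mul]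
  refine (ENNReal.rpow_le_rpow h2 (by positivity)).trans (le_of_eq ?_)
  rw [← ENNReal.rpow_natCast, ← ENNReal.rpow_mul]
  congr 1
  push_cast
  ring

/-- the estimate of the inner part -/
theorem inner {q : ℝ} {n : ℕ} {ψ : ℂ → ℝ} {χ : ℂ → ℝ} {R δ E off : ℝ} (hq : 1 ≤ q)
    (hE : 0 ≤ E) (hoff : 0 ≤ off)
    (hcell : ∀ (a : ℂ) (g : ℂ → ℂ), Nice g → (∀ z, g z ≠ 0 → ‖z - a‖ ≤ R) →
      (∫⁻ w, (∫⁻ y, ENNReal.ofReal (χ y) * ‖So n ψ g (w + y)‖ₑ ^ 2) ^ (q / 2)) ^ (1 / q) ≤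
        ENNReal.ofReal E * (∫⁻ z, ‖g z‖ₑ ^ q) ^ (1 / q))
    (hint : ∀ (cell : ℂ → ℤ × ℤ) (g : ℂ → ℂ), Measurable cell → Nice g →
      (∀ z z', g z ≠ 0 → g z' ≠ 0 → cell z ≠ cell z' → δ ≤ ‖z - z'‖) →
      ∫⁻ w, (∫⁻ y, ENNReal.ofReal (χ y) * ‖So n ψ g (w + y)‖ₑ ^ 2) ^ (q / 2) ≤
        (∑' Q : ℤ × ℤ, ∫⁻ w, (∫⁻ y, ENNReal.ofReal (χ y) *
          ‖So n ψ (pc cell g Q) (w + y)‖ₑ ^ 2) ^ (q / 2)) +
        ENNReal.ofReal off * ∫⁻ z, ‖g z‖ₑ ^ q)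
    {g : ℂ → ℂ} (hg : Nice g) {cell : ℂ → ℤ × ℤ} {I : Set ℂ} (hcm : Measurable cell)
    (hI : MeasurableSet I) (hsep : ∀ z ∈ I, ∀ z' ∈ I, cell z ≠ cell z' → δ ≤ ‖z - z'‖)
    (hdiam : ∀ z z', cell z = cell z' → ‖z - z'‖ ≤ R) :
    ∫⁻ w, (∫⁻ y, ENNReal.ofReal (χ y) * ‖So n ψ (I.indicator g) (w + y)‖ₑ ^ 2) ^ (q / 2) ≤
      ENNReal.ofReal ((E + off ^ (1 / q)) ^ q) * ∫⁻ z, ‖g z‖ₑ ^ q := by
  have hq0 : 0 < q := by linarith
  obtain ⟨gi, hgi⟩ : ∃ gi, gi = I.indicator g := ⟨_, rfl⟩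
  have hgiN : Nice gi := hgi ▸ LQ.nice_ind hg hI
  rw [← hgi]
  have hgi0 : ∀ z, gi z ≠ 0 → z ∈ I := by
    intro z hz
    rw [hgi] at hz
    exact Set.mem_of_indicator_ne_zero hz
  refine (hint cell gi hcm hgiN fun z z' h1 h2 h3 => hsep z (hgi0 z h1) z' (hgi0 z' h2) h3).trans ?_
  have hpc : ∀ Q, Nice (pc cell gi Q) := fun Q =>
    LQ.nice_ind hgiN (hcm (measurableSet_singleton Q))
  have hQ : ∀ Q : ℤ × ℤ, ∫⁻ w, (∫⁻ y, ENNReal.ofReal (χ y) *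
      ‖So n ψ (pc cell gi Q) (w + y)‖ₑ ^ 2) ^ (q / 2) ≤
        ENNReal.ofReal E ^ q * ∫⁻ z, ‖pc cell gi Q z‖ₑ ^ q := by
    intro Q
    have h1 : ∃ a : ℂ, ∀ z, pc cell gi Q z ≠ 0 → ‖z - a‖ ≤ R := by
      by_cases h : ∃ z0, pc cell gi Q z0 ≠ 0
      · obtain ⟨z0, h0⟩ := h
        refine ⟨z0, fun z hz => hdiam z z0 ?_⟩
        have e1 : z ∈ {z' | cell z' = Q} := Set.mem_of_indicator_ne_zero (f := gi) hz
        have e2 : z0 ∈ {z' | cell z' = Q} := Set.mem_of_indicator_ne_zero (f := gi) h0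
        have e1' : cell z = Q := e1
        have e2' : cell z0 = Q := e2
        rw [e1', e2']
      · exact ⟨0, fun z hz => absurd ⟨z, hz⟩ h⟩
    obtain ⟨a, ha⟩ := h1
    have h2 := ENNReal.rpow_le_rpow (hcell a _ (hpc Q) ha) hq0.le
    rw [one_div, ENNReal.rpow_inv_rpow hq0.ne', ENNReal.mul_rpow_of_nonneg _ _ hq0.le,
      ENNReal.rpow_inv_rpow hq0.ne'] at h2
    exact h2
  have hsum : ∑' Q : ℤ × ℤ, ∫⁻ z, ‖pc cell gi Q z‖ₑ ^ q = ∫⁻ z, ‖gi z‖ₑ ^ q := by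
    rw [← lintegral_tsum fun Q => ((hpc Q).1.enorm.pow_const q).aemeasurable]
    refine lintegral_congr fun z => ?_
    rw [tsum_eq_single (cell z)]
    · unfold pc
      rw [Set.indicator_of_mem (show z ∈ {z' | cell z' = cell z} from rfl)]
    · intro Q hQ
      unfold pc
      rw [Set.indicator_of_notMem (show z ∉ {z' | cell z' = Q} from fun h => hQ h.symm),
        enorm_zero, ENNReal.zero_rpow_of_pos hq0]
  have hle : ∫⁻ z, ‖gi z‖ₑ ^ q ≤ ∫⁻ z, ‖g z‖ₑ ^ q := by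
    refine lintegral_mono fun z => ENNReal.rpow_le_rpow ?_ hq0.le
    rw [hgi]
    by_cases h : z ∈ I
    · rw [Set.indicator_of_mem h]
    · rw [Set.indicator_of_notMem h, enorm_zero]
      exact zero_le
  calc _ ≤ (∑' Q : ℤ × ℤ, ENNReal.ofReal E ^ q * ∫⁻ z, ‖pc cell gi Q z‖ₑ ^ q) +
        ENNReal.ofReal off * ∫⁻ z, ‖gi z‖ₑ ^ q := add_le_add (ENNReal.tsum_le_tsum hQ) le_rfl
    _ = (ENNReal.ofReal E ^ q + ENNReal.ofReal off) * ∫⁻ z, ‖gi z‖ₑ ^ q := by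
        rw [ENNReal.tsum_mul_left, hsum, add_mul]
    _ ≤ ENNReal.ofReal ((E + off ^ (1 / q)) ^ q) * ∫⁻ z, ‖g z‖ₑ ^ q := by
        refine mul_le_mul' ?_ hle
        rw [ENNReal.ofReal_rpow_of_nonneg hE hq0.le, ← ENNReal.ofReal_add (by positivity) hoff]
        refine ENNReal.ofReal_le_ofReal ?_
        have h1 := Real.add_rpow_le_rpow_add hE (Real.rpow_nonneg hoff (1 / q)) hq
        have h2 : (off ^ (1 / q)) ^ q = off := by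
          rw [← Real.rpow_mul hoff, one_div, inv_mul_cancel₀ hq0.ne', Real.rpow_one]
        rwa [h2] at h1

/-- the choice of the exponents -/
theorem num {m : ℝ} (hm : Rg m) :
    ∃ τ c1 : ℝ, 0 < τ ∧ τ ≤ 1 / 225 ∧ 0 < c1 ∧ c1 ≤ 1 / 2 ∧
      1 - 2 * c1 - (1 / 2 + c1) / m ≤ (1 - 1 / m) - τ ∧
      1 / 60 + (τ + 1 / 2 + c1) * (1 - 1 / m) + 2 * (1 / 150) / qr m ≤
        (1 - 1 / m) - τ := by
  have h1 : 11 / 10 ≤ m := hm.1
  have hm0 : (0 : ℝ) < m := by linarith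
  obtain ⟨-, -, h2⟩ := qr_facts hm
  refine ⟨1 / 2000, 1 / (2 * (2 * m + 1)) + 1 / 2000, by norm_num, by norm_num, by positivity,
    ?_, ?_, ?_⟩
  · have h3 : 1 / (2 * (2 * m + 1)) ≤ 1 / 4 := by
      rw [div_le_div_iff₀ (by positivity) (by norm_num)]
      linarith
    linarith
  · have h3 : 1 - 2 * (1 / (2 * (2 * m + 1)) + 1 / 2000) -
        (1 / 2 + (1 / (2 * (2 * m + 1)) + 1 / 2000)) / m =
        (1 - 1 / m) - 1 / 2000 * (2 + 1 / m) := by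
      field_simp
      ring
    rw [h3]
    have h4 : 0 < 1 / m := by positivity
    nlinarith
  · have h3 : 2 * (1 / 150 : ℝ) / qr m = 1 / 150 * ((2 * m - 1) / m) := by
      rw [mul_comm 2 (1 / 150 : ℝ), mul_div_assoc, h2]
    have h4 : 1 / 60 + (1 / 2000 + 1 / 2 + (1 / (2 * (2 * m + 1)) + 1 / 2000)) *
        (1 - 1 / m) + 1 / 150 * ((2 * m - 1) / m) =
        (1 - 1 / m) - 1 / 2000 - (((m - 1) / (2 * m + 1) - 1 / 60 -
          1 / 150 * ((2 * m - 1) / m)) - 1 / 2000 - 1 / 1000 * (1 - 1 / m)) := by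
      field_simp
      ring
    rw [h3, h4]
    have h5 : 0 < 1 / m := by positivity
    have h6 : (1 : ℝ) / 200 ≤ (m - 1) / (2 * m + 1) - 1 / 60 - 1 / 150 * ((2 * m - 1) / m) := by
      have h7 : (m - 1 : ℝ) / (2 * m + 1) - 1 / 60 - 1 / 150 * ((2 * m - 1) / m) - 1 / 200 =
          ((m - 11 / 10) * (279 * m + 4 / 10) + 61 / 25) / (300 * m * (2 * m + 1)) := by
        field_simp
        ring
      have h8 : 0 ≤ ((m - 11 / 10) * (279 * m + 4 / 10) + 61 / 25) / (300 * m * (2 * m + 1)) := by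
        apply div_nonneg _ (by positivity)
        have : 0 ≤ (m - 11 / 10) * (279 * m + 4 / 10) := by
          apply mul_nonneg <;> linarith
        linarith
      linarith
    linarith

theorem err_bd {N : ℝ} (hN : 1 ≤ N) {m : ℝ} (hm : 1 ≤ m) {c1 τ C R : ℝ} (hC : 0 ≤ C)
    (hc1 : c1 ≤ 1 / 2)
    (h : 1 - 2 * c1 - (1 / 2 + c1) / m ≤ (1 - 1 / m) - τ)
    (hR : R = N ^ (-(1 / 2) - c1) / 8) :
    C * N * (R + N * R ^ 2) * R ^ (1 / m) ≤ C * (N ^ (1 - 1 / m) * N ^ (-τ)) := by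
  have hN0 : 0 < N := by linarith
  have hm1 : (0 : ℝ) < m := by linarith
  obtain ⟨u, hu⟩ : ∃ u, u = N ^ (-(1 / 2) - c1) := ⟨_, rfl⟩
  have hu0 : 0 < u := by rw [hu]; positivity
  have h1 : u ≤ N ^ (-(2 * c1)) := by
    rw [hu]
    exact Real.rpow_le_rpow_of_exponent_le hN (by linarith)
  have h2 : N * u ^ 2 = N ^ (-(2 * c1)) := by
    rw [hu, ← Real.rpow_natCast, ← Real.rpow_mul hN0.le]
    conv_lhs => rw [← Real.rpow_one N, ← Real.rpow_mul hN0.le, ← Real.rpow_add hN0]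
    congr 1
    push_cast
    ring
  have h3 : R + N * R ^ 2 ≤ N ^ (-(2 * c1)) := by
    rw [hR, ← hu, div_pow, ← mul_div_assoc, h2]
    have : 0 < N ^ (-(2 * c1)) := by positivity
    linarith
  have hR0 : 0 ≤ R := by rw [hR]; positivity
  have h4 : R ^ (1 / m) ≤ N ^ ((-(1 / 2) - c1) * (1 / m)) := by
    rw [Real.rpow_mul hN0.le, ← hu]
    refine Real.rpow_le_rpow hR0 ?_ (by positivity)
    rw [hR, ← hu]
    linarith
  calc C * N * (R + N * R ^ 2) * R ^ (1 / m)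
      ≤ C * N * N ^ (-(2 * c1)) * N ^ ((-(1 / 2) - c1) * (1 / m)) := by gcongr
    _ = C * N ^ (1 - 2 * c1 - (1 / 2 + c1) / m) := by
        rw [mul_assoc, mul_assoc, ← Real.rpow_add hN0]
        congr 1
        conv_lhs => rw [← Real.rpow_one N, ← Real.rpow_mul hN0.le, ← Real.rpow_add hN0]
        congr 1
        ring
    _ ≤ C * (N ^ (1 - 1 / m) * N ^ (-τ)) := by
        rw [← Real.rpow_add hN0]
        refine mul_le_mul_of_nonneg_left (Real.rpow_le_rpow_of_exponent_le hN ?_) hC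
        linarith

theorem off_bd {N : ℝ} (hN : 1 ≤ N) {m : ℝ} (hm : 1 ≤ m) {c c2 c1 τ CI CJ q : ℝ} (hCI : 0 < CI)
    (hCJ : 0 < CJ) (hq : 1 ≤ q)
    (h : c2 + (τ + 1 / 2 + c1) * (1 - 1 / m) + 2 * c / q ≤ (1 - 1 / m) - τ) :
    (CI * (CJ / (N ^ (-c2)) ^ 2) ^ (q / 2) *
      ((N ^ (-τ) * (N ^ (-(1 / 2) - c1) / 16)) ^ (-2 + 2 / m)) ^ (q / 2) *
        (N ^ c) ^ 2) ^ (1 / q) ≤
      (CI ^ (1 / q) * CJ ^ (1 / 2 : ℝ) * 16) * (N ^ (1 - 1 / m) * N ^ (-τ)) := by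
  have hN0 : 0 < N := by linarith
  have hq0 : 0 < q := by linarith
  have hm1 : (0 : ℝ) < m := by linarith
  have hP : ∀ x : ℝ, 0 < N ^ x := fun x => Real.rpow_pos_of_pos hN0 x
  have e1 : ∀ X : ℝ, 0 ≤ X → (X ^ (q / 2)) ^ (1 / q) = X ^ (1 / 2 : ℝ) := by
    intro X hX
    rw [← Real.rpow_mul hX]
    congr 1
    field_simp
  have e2 : (CJ / (N ^ (-c2)) ^ 2) ^ (1 / 2 : ℝ) = CJ ^ (1 / 2 : ℝ) * N ^ c2 := by
    rw [Real.div_rpow hCJ.le (by positivity), ← Real.rpow_natCast, ← Real.rpow_mul hN0.le,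
      ← Real.rpow_mul hN0.le, div_eq_mul_inv, ← Real.rpow_neg hN0.le]
    congr 2
    push_cast
    ring
  have e3 : ((N ^ (-τ) * (N ^ (-(1 / 2) - c1) / 16)) ^ (-2 + 2 / m)) ^ (1 / 2 : ℝ) ≤
      16 * N ^ ((τ + 1 / 2 + c1) * (1 - 1 / m)) := by
    have f1 : N ^ (-τ) * (N ^ (-(1 / 2) - c1) / 16) = N ^ (-(τ + 1 / 2 + c1)) * 16⁻¹ := by
      rw [← mul_div_assoc, ← Real.rpow_add hN0, div_eq_mul_inv]
      congr 2
      ring
    have f2 : (-2 + 2 / m) * (1 / 2) = -(1 - 1 / m) := by ring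
    rw [f1, ← Real.rpow_mul (by positivity), f2, Real.mul_rpow (hP _).le (by norm_num),
      ← Real.rpow_mul hN0.le, Real.inv_rpow (by norm_num), ← Real.rpow_neg (by norm_num), neg_neg,
      neg_mul_neg, mul_comm]
    refine mul_le_mul_of_nonneg_right ?_ (hP _).le
    have f3 : (16 : ℝ) ^ (1 - 1 / m) ≤ (16 : ℝ) ^ (1 : ℝ) := by
      refine Real.rpow_le_rpow_of_exponent_le (by norm_num) ?_
      have : 0 < 1 / m := by positivity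
      linarith
    rwa [Real.rpow_one] at f3
  have e4 : ((N ^ c) ^ 2) ^ (1 / q) = N ^ (2 * c / q) := by
    rw [← Real.rpow_natCast, ← Real.rpow_mul hN0.le, ← Real.rpow_mul hN0.le]
    congr 1
    push_cast
    ring
  rw [Real.mul_rpow (by positivity) (by positivity), Real.mul_rpow (by positivity) (by positivity),
    Real.mul_rpow (by positivity) (by positivity), e1 _ (by positivity), e1 _ (by positivity), e2,
    e4]
  calc CI ^ (1 / q) * (CJ ^ (1 / 2 : ℝ) * N ^ c2) *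
        ((N ^ (-τ) * (N ^ (-(1 / 2) - c1) / 16)) ^ (-2 + 2 / m)) ^ (1 / 2 : ℝ) *
          N ^ (2 * c / q)
      ≤ CI ^ (1 / q) * (CJ ^ (1 / 2 : ℝ) * N ^ c2) *
        (16 * N ^ ((τ + 1 / 2 + c1) * (1 - 1 / m))) * N ^ (2 * c / q) := by gcongr
    _ = (CI ^ (1 / q) * CJ ^ (1 / 2 : ℝ) * 16) *
        N ^ (c2 + (τ + 1 / 2 + c1) * (1 - 1 / m) + 2 * c / q) := by
        rw [Real.rpow_add hN0 (c2 + _), Real.rpow_add hN0 c2]
        ring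
    _ ≤ _ := by
        rw [← Real.rpow_add hN0]
        refine mul_le_mul_of_nonneg_left (Real.rpow_le_rpow_of_exponent_le hN ?_) (by positivity)
        linarith

/-- the final theorem, for one `n` -/
theorem one (hL : S_LAY) {m G : ℝ} (hm : Rg m) (hGA : 0 < G) {B : ℝ}
    {χ : ℂ → ℝ} (hχd : ContDiff ℝ 2 χ) (hχ0 : ∀ y, 0 ≤ χ y) (hχs : ∀ y, 1 < ‖y‖ → χ y = 0)
    (hχi : ∫ y, χ y = 1) {CJ CI CC e η τ c1 κ : ℝ} (hCJ : 0 < CJ) (hCI : 0 < CI) (hCC : 0 < CC)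
    (he0 : 0 < e) (he1 : e ≤ 1)
    (hJJ : ∀ (n : ℕ) (l D : ℝ) (ψ : ℂ → ℝ), 1 ≤ n → 0 < l → l ≤ 1 →
      Cut B 1 D ψ → ∀ z z' w : ℂ, z ≠ z' →
      ‖∫ y, (sc χ l y : ℂ) * (kk n ψ (w + y - z) * conj (kk n ψ (w + y - z')))‖ ≤
        CJ / (l ^ 2 * ‖z - z'‖ ^ 2))
    (hINT : ∀ (n : ℕ) (ψ : ℂ → ℝ) (l D CJ δ : ℝ) (χ : ℂ → ℝ) (cell : ℂ → ℤ × ℤ) (g : ℂ → ℂ),
      1 ≤ n → 0 < l → l ≤ 1 → 1 ≤ D → 0 ≤ CJ → 0 < δ → Measurable χ → (∀ y, 0 ≤ χ y) →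
      (∀ y, l < ‖y‖ → χ y = 0) →
      (∫ y, χ y = 1) → (∃ B, Cut B 1 D ψ) → Measurable cell → Nice g →
      (∀ z z', g z ≠ 0 → g z' ≠ 0 → cell z ≠ cell z' → δ ≤ ‖z - z'‖) →
      (∀ z z' w : ℂ, z ≠ z' →
        ‖∫ y, (χ y : ℂ) * (kk n ψ (w + y - z) * conj (kk n ψ (w + y - z')))‖ ≤
          CJ * (‖z - z'‖ ^ 2)⁻¹) →
      ∫⁻ w, (∫⁻ y, ENNReal.ofReal (χ y) * ‖So n ψ g (w + y)‖ₑ ^ 2) ^ (qr m / 2) ≤
        (∑' Q : ℤ × ℤ, ∫⁻ w, (∫⁻ y, ENNReal.ofReal (χ y) *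
          ‖So n ψ (pc cell g Q) (w + y)‖ₑ ^ 2) ^ (qr m / 2)) +
        ENNReal.ofReal (CI * CJ ^ (qr m / 2) * (δ ^ (-2 + 2 / m)) ^ (qr m / 2) * D ^ 2) *
          ∫⁻ z, ‖g z‖ₑ ^ (qr m))
    (hCELL : ∀ (n : ℕ) (R l T D : ℝ) (ψ : ℂ → ℝ) (χ : ℂ → ℝ≥0∞) (a : ℂ) (g : ℂ → ℂ),
      1 ≤ n → 0 < R → R ≤ 1 / 8 → (n : ℝ) * R ^ 2 ≤ 1 / 4 → 0 < l → l ≤ η → 1 ≤ D → 0 < T →
      T * D ≤ η * n → (n : ℝ) * l ≤ η * T → Cut B 1 D ψ → Mol l χ → Nice g →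
      (∀ z, g z ≠ 0 → ‖z - a‖ ≤ R) →
      (∫⁻ w, (∫⁻ y, χ y * ‖So n ψ g (w + y)‖ₑ ^ 2) ^ (qr m / 2)) ^ (1 / qr m) ≤
        ENNReal.ofReal ((1 + e / 8) * Ar m G n + CC * n * (R + n * R ^ 2) * R ^ (1 / m)) *
          (∫⁻ z, ‖g z‖ₑ ^ (qr m)) ^ (1 / qr m))
    (hτ : 0 < τ) (hτ1 : τ ≤ 1 / 225) (hc1 : 0 < c1) (hc1' : c1 ≤ 1 / 2)
    (hx1 : 1 - 2 * c1 - (1 / 2 + c1) / m ≤ (1 - 1 / m) - τ)
    (hx2 : 1 / 60 + (τ + 1 / 2 + c1) * (1 - 1 / m) + 2 * (1 / 150) / qr m ≤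
        (1 - 1 / m) - τ)
    (hκη : κ ≤ η) (hκ1 : κ ≤ 1 / 2)
    (hκA : (CC + CI ^ (1 / qr m) * CJ ^ (1 / 2 : ℝ) * 16) * κ ≤ e / 8 * G)
    (hκe : 2 * κ ≤ (e / 8) ^ qr m)
    {n : ℕ} (hn : 1 ≤ n) (hnκ : (n : ℝ) ^ (-τ) ≤ κ) (ψ : ℂ → ℝ)
    (hψ : Cut B 1 ((n : ℝ) ^ (1 / 150 : ℝ)) ψ) :
    ∀ g : ℂ → ℂ, Nice g →
      ∫⁻ w, (∫⁻ y, ENNReal.ofReal (sc χ ((n : ℝ) ^ (-(1 / 60) : ℝ)) y) *
        ‖So n ψ g (w + y)‖ₑ ^ 2) ^ (qr m / 2) ≤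
      ENNReal.ofReal (((1 + e) * Ar m G n) ^ (qr m)) * ∫⁻ z, ‖g z‖ₑ ^ (qr m) := by
  obtain ⟨hq1, hq2, -⟩ := qr_facts hm
  have hq0 : 0 < qr m := by linarith
  have hm0 : (0 : ℝ) < m := by linarith [hm.1]
  have hN : (1 : ℝ) ≤ n := by exact_mod_cast hn
  have hN0 : (0 : ℝ) < n := by linarith
  have hP : ∀ x : ℝ, 0 < (n : ℝ) ^ x := fun x => Real.rpow_pos_of_pos hN0 x
  have hcont : Continuous ψ := hψ.1.continuous
  obtain ⟨x, hx⟩ : ∃ x : ℝ, x = (n : ℝ) ^ (-τ) := ⟨_, rfl⟩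
  have hx0 : 0 < x := by rw [hx]; exact hP _
  have hxκ : x ≤ κ := hx ▸ hnκ
  obtain ⟨l, hl⟩ : ∃ l : ℝ, l = (n : ℝ) ^ (-(1 / 60) : ℝ) := ⟨_, rfl⟩
  have hl0 : 0 < l := by rw [hl]; exact hP _
  have hlx : l ≤ x := by
    rw [hl, hx]
    exact Real.rpow_le_rpow_of_exponent_le hN (by linarith)
  have hyx : (n : ℝ) ^ (-(1 / 225) : ℝ) ≤ x := by
    rw [hx]
    exact Real.rpow_le_rpow_of_exponent_le hN (by linarith)
  have hyx' : (n : ℝ) ^ (-(1 / 180) : ℝ) ≤ x := by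
    rw [hx]
    exact Real.rpow_le_rpow_of_exponent_le hN (by linarith)
  obtain ⟨T, hT⟩ : ∃ T : ℝ, T = (n : ℝ) ^ (89 / 90 : ℝ) := ⟨_, rfl⟩
  have hT0 : 0 < T := by rw [hT]; exact hP _
  obtain ⟨u, hu⟩ : ∃ u : ℝ, u = (n : ℝ) ^ (-(1 / 2) - c1) := ⟨_, rfl⟩
  have hu0 : 0 < u := by rw [hu]; exact hP _
  have hu1 : u ≤ 1 := by
    rw [hu]
    exact Real.rpow_le_one_of_one_le_of_nonpos hN (by linarith)
  obtain ⟨D, hD⟩ : ∃ D : ℝ, D = (n : ℝ) ^ (1 / 150 : ℝ) := ⟨_, rfl⟩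
  have hD1 : 1 ≤ D := by
    rw [hD]
    exact Real.one_le_rpow hN (by norm_num)
  rw [← hD] at hψ
  rw [← hl]
  -- the conditions of CELL
  have hnR : (n : ℝ) * (u / 8) ^ 2 ≤ 1 / 4 := by
    have h1 : (n : ℝ) * u ^ 2 ≤ 1 := by
      have h2 : (n : ℝ) * u ^ 2 = (n : ℝ) ^ (-(2 * c1)) := by
        rw [hu, ← Real.rpow_natCast ((n : ℝ) ^ (-(1 / 2) - c1)), ← Real.rpow_mul hN0.le]
        conv_lhs => rw [← Real.rpow_one (n : ℝ), ← Real.rpow_mul hN0.le, ← Real.rpow_add hN0]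
        congr 1
        push_cast
        ring
      rw [h2]
      exact Real.rpow_le_one_of_one_le_of_nonpos hN (by linarith)
    rw [div_pow, ← mul_div_assoc]
    linarith
  have hTD : T * D ≤ η * n := by
    have h1 : T * D = (n : ℝ) ^ (-(1 / 225) : ℝ) * n := by
      rw [hT, hD, ← Real.rpow_add hN0]
      conv_rhs => rw [mul_comm, ← Real.rpow_one (n : ℝ), ← Real.rpow_mul hN0.le,
        ← Real.rpow_add hN0]
      congr 1
      norm_num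
    rw [h1]
    exact mul_le_mul_of_nonneg_right (hyx.trans (hxκ.trans hκη)) hN0.le
  have hnl : (n : ℝ) * l ≤ η * T := by
    have h1 : (n : ℝ) * l = (n : ℝ) ^ (-(1 / 180) : ℝ) * T := by
      rw [hT, hl, ← Real.rpow_add hN0]
      conv_lhs => rw [← Real.rpow_one (n : ℝ), ← Real.rpow_mul hN0.le, ← Real.rpow_add hN0]
      congr 1
      norm_num
    rw [h1]
    exact mul_le_mul_of_nonneg_right (hyx'.trans (hxκ.trans hκη)) hT0.le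
  -- the constants
  obtain ⟨E, hE⟩ : ∃ E : ℝ, E = (1 + e / 8) * Ar m G n +
      CC * n * (u / 8 + n * (u / 8) ^ 2) * (u / 8) ^ (1 / m) := ⟨_, rfl⟩
  have hAA : 0 < Ar m G n := mul_pos (hP _) hGA
  have hE0 : 0 ≤ E := by rw [hE]; positivity
  obtain ⟨off, hoff⟩ : ∃ off : ℝ, off = CI * (CJ / l ^ 2) ^ (qr m / 2) *
      ((x * (u / 16)) ^ (-2 + 2 / m)) ^ (qr m / 2) * D ^ 2 := ⟨_, rfl⟩
  have hoff0 : 0 ≤ off := by rw [hoff]; positivity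
  have hM : E + off ^ (1 / qr m) ≤ (1 + e / 4) * Ar m G n := by
    have h1 : CC * n * (u / 8 + n * (u / 8) ^ 2) * (u / 8) ^ (1 / m) ≤
        CC * ((n : ℝ) ^ (1 - 1 / m) * (n : ℝ) ^ (-τ)) :=
      err_bd hN (by linarith [hm.1]) hCC.le hc1' hx1 (by rw [hu])
    have h2 : off ^ (1 / qr m) ≤ (CI ^ (1 / qr m) * CJ ^ (1 / 2 : ℝ) * 16) *
        ((n : ℝ) ^ (1 - 1 / m) * (n : ℝ) ^ (-τ)) := by
      rw [hoff, hl, hx, hu, hD]
      exact off_bd hN (by linarith [hm.1]) hCI hCJ hq1 hx2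
    have h3 : (CC + CI ^ (1 / qr m) * CJ ^ (1 / 2 : ℝ) * 16) * x ≤ e / 8 * G :=
      (mul_le_mul_of_nonneg_left hxκ (by positivity)).trans hκA
    have h4 := mul_le_mul_of_nonneg_left h3 (hP (1 - 1 / m)).le
    have h5 : (n : ℝ) ^ (1 - 1 / m) * (e / 8 * G) = e / 8 * Ar m G n := by
      unfold Ar
      ring
    rw [h5] at h4
    rw [← hx] at h1 h2
    rw [hE]
    linarith
  have hMol : Mol l fun y => ENNReal.ofReal (sc χ l y) :=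
    LQ.sc_mol hχd.continuous hχ0 hχs hχi hl0
  obtain ⟨N, hNN⟩ : ∃ N : (ℂ → ℂ) → ℝ≥0∞, N = fun g => ∫⁻ w, (∫⁻ y, ENNReal.ofReal (sc χ l y) *
    ‖So n ψ g (w + y)‖ₑ ^ 2) ^ (qr m / 2) := ⟨_, rfl⟩
  -- the inner part
  have hinner : ∀ g : ℂ → ℂ, Nice g → ∃ I, MeasurableSet I ∧
      ∫⁻ z in Iᶜ, ‖g z‖ₑ ^ (qr m) ≤ ENNReal.ofReal (2 * x) * ∫⁻ z, ‖g z‖ₑ ^ (qr m) ∧
      N (I.indicator g) ≤
        ENNReal.ofReal (((1 + e / 4) * Ar m G n) ^ (qr m)) * ∫⁻ z, ‖g z‖ₑ ^ (qr m) := by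
    intro g hg
    obtain ⟨cell, I, hcm, hI, h1, h2, h3⟩ := hL (qr m) (u / 16) x g hq0 (by positivity) hx0
      (by linarith) hg
    refine ⟨I, hI, h1, ?_⟩
    rw [hNN]
    refine (inner (χ := sc χ l) (R := u / 8) (δ := x * (u / 16)) (E := E) (off := off) hq1 hE0 hoff0
      ?_ ?_ hg hcm hI h2 ?_).trans ?_
    · intro a g' hg' ha
      rw [hE]
      exact hCELL n (u / 8) l T D ψ _ a g' hn (by positivity) (by linarith) hnR hl0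
        (hlx.trans (hxκ.trans hκη)) hD1 hT0 hTD hnl hψ hMol hg' ha
    · intro cell' g' hcm' hg' hsep'
      rw [hoff]
      refine hINT n ψ l D (CJ / l ^ 2) (x * (u / 16)) (sc χ l) cell' g' hn hl0
        (by linarith) hD1 (by positivity) (by positivity) (LQ.sc_cont hχd.continuous l).measurable
        (LQ.sc_nonneg hχ0 l) (LQ.sc_supp hχs hl0) (LQ.sc_int hχi hl0) ⟨B, hψ⟩ hcm' hg' hsep' ?_
      intro z z' w hzz
      refine (hJJ n l D ψ hn hl0 (by linarith) hψ z z' w hzz).trans (le_of_eq ?_)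
      rw [div_mul_eq_div_div, div_eq_mul_inv]
    · intro z z' hzz
      have := h3 z z' hzz
      linarith
    · refine mul_le_mul' (ENNReal.ofReal_le_ofReal ?_) le_rfl
      exact Real.rpow_le_rpow (by positivity) hM hq0.le
  have hρ : (2 * x) ^ (1 / qr m) ≤ e / 8 := by
    have h1 : (2 * x) ^ (1 / qr m) ≤ ((e / 8) ^ qr m) ^ (1 / qr m) :=
      Real.rpow_le_rpow (by positivity) (by linarith) (by positivity)
    rwa [← Real.rpow_mul (by positivity), mul_one_div_cancel hq0.ne', Real.rpow_one] at h1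
  have hadd : ∀ g, Nice g → ∀ I, MeasurableSet I →
      (N g) ^ (1 / qr m) ≤ (N (I.indicator g)) ^ (1 / qr m) +
        (N (Iᶜ.indicator g)) ^ (1 / qr m) := by
    intro g hg I hI
    rw [hNN]
    beta_reduce
    simp only [LQ.So_add hn hψ hg hI]
    exact LQT.mink hMol.1 (LQ.So_meas hcont (LQ.nice_ind hg hI))
      (LQ.So_meas hcont (LQ.nice_ind hg hI.compl)) hq1
  have hfin : ∃ K, 0 ≤ K ∧ ∀ g, Nice g →
      N g ≤ ENNReal.ofReal (K ^ qr m) * ∫⁻ z, ‖g z‖ₑ ^ (qr m) := by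
    rw [hNN]
    exact fin hm hn hψ (by linarith) hMol
  have hfinal := LQT.improve (N := N) (M := (1 + e / 4) * Ar m G n) (K' := (1 + e) * Ar m G n) (η := x)
    hq1 (by positivity) hx0 hadd hinner hfin (by linarith) ?_
  · rw [hNN] at hfinal
    exact hfinal
  have h1 : (1 + e) * Ar m G n * (2 * x) ^ (1 / qr m) ≤ (1 + e) * Ar m G n * (e / 8) :=
    mul_le_mul_of_nonneg_left hρ (by positivity)
  have h2 : (1 + e / 4) + (1 + e) * (e / 8) < 1 + e := by nlinarith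
  nlinarith

/-- LQT -/
theorem t (h1 : R_INT) (h2 : R_CELL) : R_LQT := by
  obtain ⟨χ, hχd, hχ0, hχs, hχi, hJJ⟩ := JJ.t IBP.t
  refine ⟨χ, ⟨hχd, hχ0, hχs, hχi⟩, ?_⟩
  intro m G B ε hm hG0 hPit hε
  obtain ⟨CJ, hCJ, hJJ⟩ := hJJ B
  obtain ⟨CI, hCI, hINT⟩ := h1 m hm
  obtain ⟨CC, hCC, hCELL⟩ := h2 m G B hm hG0 hPit
  obtain ⟨e, he⟩ : ∃ e, e = min ε 1 := ⟨_, rfl⟩
  have he0 : 0 < e := by rw [he]; exact lt_min hε one_pos
  have he1 : e ≤ 1 := by rw [he]; exact min_le_right _ _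
  have heε : e ≤ ε := by rw [he]; exact min_le_left _ _
  obtain ⟨η, hη, hCELL⟩ := hCELL (e / 8) (by positivity)
  obtain ⟨τ, c1, hτ, hτ1, hc1, hc1', hx1, hx2⟩ := num hm
  obtain ⟨hq1, hq2, -⟩ := qr_facts hm
  obtain ⟨κ, hκ0, hκη, hκ1, hκA, hκe⟩ := LQ.kappa (η := η) (e := e) (G := G)
    (A := CC + CI ^ (1 / qr m) * CJ ^ (1 / 2 : ℝ) * 16) (q := qr m) hη he0 hG0 (by positivity)
  have hlim : ∀ᶠ n : ℕ in atTop, (n : ℝ) ^ (-τ) ≤ κ :=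
    ((tendsto_rpow_neg_atTop hτ).comp tendsto_natCast_atTop_atTop).eventually_le_const hκ0
  obtain ⟨n₀, hn₀⟩ := eventually_atTop.1 (hlim.and (eventually_ge_atTop 1))
  refine ⟨n₀, fun n hn ψ hψ g hg => ?_⟩
  obtain ⟨h4, h5⟩ := hn₀ n hn
  have h3 := one LAY.t hm hG0 hχd hχ0 hχs hχi hCJ hCI hCC he0 he1 hJJ hINT hCELL hτ hτ1 hc1 hc1' hx1
    hx2 hκη hκ1 hκA hκe h5 h4 ψ hψ g hg
  refine h3.trans (mul_le_mul' (ENNReal.ofReal_le_ofReal ?_) le_rfl)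
  have hAA : 0 ≤ Ar m G n := mul_nonneg (Real.rpow_nonneg (Nat.cast_nonneg n) _) hG0.le
  refine Real.rpow_le_rpow (by positivity) ?_ (by linarith)
  exact mul_le_mul_of_nonneg_right (by linarith) hAA

end Pool.Agent.H45.PB.LQT
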