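import Pool.Agent.H78.PB.Stm
import Pool.Agent.N892.BW.STR
import Pool.Agent.N892.BW.BAS

/-!
Project PB: STR for real exponents, the sharp bound for narrow windows. (helper45, after N892/BW)
-/

set_option autoImplicit false

open MeasureTheory ENNReal Filter Topology Complex
open scoped ComplexConjugate ContDiff

namespace Pool.Agent.H45.PB.STR

open Pool.Agent.N892.BW Pool.Agent.H78.PB

theorem nr_lt {m : ℝ} (hm : 1 ≤ m) {f : ℂ → ℂ} (hf : Nic2 f) : Nr m f < ⊤ := by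
  obtain ⟨h1, h2, M, hM⟩ := hf
  have hM0 : 0 ≤ M := (norm_nonneg _).trans (hM 0)
  have h3 : Nr m f ≤ ∫⁻ x, ENNReal.ofReal (M ^ (2 * m - 1)) * ‖f x‖ₑ := by
    unfold Nr
    refine lintegral_mono fun x => ?_
    have e : ‖f x‖ₑ ^ (2 * m) = ‖f x‖ₑ ^ (2 * m - 1) * ‖f x‖ₑ := by
      conv_rhs => rw [← ENNReal.rpow_one (‖f x‖ₑ), ← ENNReal.rpow_mul, one_mul]
      rw [← ENNReal.rpow_add_of_nonneg _ _ (by linarith) zero_le_one]
      congr 1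
      ring
    show ‖f x‖ₑ ^ (2 * m) ≤ _
    rw [e]
    refine mul_le_mul_left ?_ _
    rw [← ENNReal.ofReal_rpow_of_nonneg hM0 (by linarith)]
    refine ENNReal.rpow_le_rpow ?_ (by linarith)
    rw [← ofReal_norm]
    exact ENNReal.ofReal_le_ofReal (hM x)
  refine h3.trans_lt ?_
  rw [lintegral_const_mul _ h1.enorm]
  exact ENNReal.mul_lt_top ENNReal.ofReal_lt_top h2.2

/-- Minkowski -/
theorem mink {m : ℝ} (hm1 : 1 ≤ m) {u v : ℂ → ℂ} (hu : Measurable u) (hv : Measurable v) :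
    (Nr m u) ^ (1 / (2 * m)) ≤ (Nr m v) ^ (1 / (2 * m)) +
      (Nr m (fun x => u x - v x)) ^ (1 / (2 * m)) := by
  have key := ENNReal.lintegral_Lp_add_le (μ := (volume : Measure ℂ)) (p := 2 * m)
    (f := fun x => ‖v x‖ₑ) (g := fun x => ‖u x - v x‖ₑ) hv.enorm.aemeasurable
    (hu.sub hv).enorm.aemeasurable (by linarith)
  unfold Nr
  refine le_trans ?_ key
  refine ENNReal.rpow_le_rpow (lintegral_mono fun x => ?_) (by positivity)
  refine ENNReal.rpow_le_rpow ?_ (by positivity)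
  show ‖u x‖ₑ ≤ ‖v x‖ₑ + ‖u x - v x‖ₑ
  have h1 : u x = v x + (u x - v x) := by ring
  calc ‖u x‖ₑ = ‖v x + (u x - v x)‖ₑ := by rw [← h1]
    _ ≤ _ := enorm_add_le _ _

theorem root {m : ℝ} (hm1 : 1 ≤ m) {A : ℝ} (hA : 0 ≤ A) (L : ℝ≥0∞) :
    (ENNReal.ofReal (A ^ (2 * m)) * L) ^ (1 / (2 * m)) =
      ENNReal.ofReal A * L ^ (1 / (2 * m)) := by
  rw [ENNReal.mul_rpow_of_nonneg _ _ (by positivity), ENNReal.ofReal_rpow_of_nonneg (by positivity)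
    (by positivity)]
  congr 2
  rw [← Real.rpow_mul hA]
  have h2 : 2 * m * (1 / (2 * m)) = 1 := by field_simp
  rw [h2, Real.rpow_one]

theorem t (h2 : R_LOC) (h3 : R_LQT) (h4 : R_DUT) : R_STR := by
  have h1 : S_BAS := Pool.Agent.N892.BW.BAS.t
  obtain ⟨χ₀, hχ, h3⟩ := h3
  obtain ⟨B, h2⟩ := h2
  obtain ⟨C, n₁, hC, h2⟩ := h2 1
  refine ⟨χ₀, hχ, fun m G ε hm hG hPit hε => ?_⟩
  obtain ⟨n₀, h3⟩ := h3 m G B ε hm hG hPit hε
  obtain ⟨n₂, hn₂⟩ : ∃ n₂ : ℕ, ∀ n : ℕ, n₂ ≤ n → 1 ≤ n ∧ (2 : ℝ) ≤ (n : ℝ) ^ (1 / 1500 : ℝ) :=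
    eventually_atTop.1 ((eventually_ge_atTop 1).and
      (((tendsto_rpow_atTop (show (0 : ℝ) < 1 / 1500 by norm_num)).comp
        tendsto_natCast_atTop_atTop).eventually_ge_atTop 2))
  refine ⟨max (max n₀ n₁) (max ⌈C⌉₊ n₂), fun n a b hn ha hab hb h hh => ?_⟩
  have hn0 : n₀ ≤ n := (le_max_left _ _).trans ((le_max_left _ _).trans hn)
  have hn1 : n₁ ≤ n := (le_max_right _ _).trans ((le_max_left _ _).trans hn)
  have hnC : C ≤ n := Nat.ceil_le.1 ((le_max_left _ _).trans ((le_max_right _ _).trans hn))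
  obtain ⟨hnpos, e2⟩ := hn₂ n ((le_max_right _ _).trans ((le_max_right _ _).trans hn))
  have hnr : (1 : ℝ) ≤ n := by exact_mod_cast hnpos
  have hnr0 : (0 : ℝ) < n := by linarith
  have hb0 : 0 < b := ha.trans_le hab
  have hm1 : 1 ≤ m := by linarith [hm.1]
  have hban : b ≤ a * n := by
    refine hb.trans (mul_le_mul_of_nonneg_left ?_ ha.le)
    calc (n : ℝ) ^ (1 / 500 : ℝ) ≤ (n : ℝ) ^ (1 : ℝ) :=
          Real.rpow_le_rpow_of_exponent_le hnr (by norm_num)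
      _ = n := Real.rpow_one _
  obtain ⟨ψ, hψ, herr⟩ := h2 n a b hn1 ha hab hban
  have hr : 0 < (n : ℝ) ^ (499 / 500 : ℝ) / b := by positivity
  -- the outer radius
  have hout : 2 * (n : ℝ) ^ (501 / 500 : ℝ) / a ≤
      (n : ℝ) ^ (499 / 500 : ℝ) / b * (n : ℝ) ^ (1 / 150 : ℝ) := by
    have e1 : (n : ℝ) ^ (499 / 500 : ℝ) / b * (n : ℝ) ^ (1 / 150 : ℝ) =
        (n : ℝ) ^ (1507 / 1500 : ℝ) / b := by
      rw [div_mul_eq_mul_div, ← Real.rpow_add hnr0]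
      norm_num
    rw [e1, div_le_div_iff₀ ha hb0]
    have e3 : (n : ℝ) ^ (1507 / 1500 : ℝ) =
        (n : ℝ) ^ (1 / 1500 : ℝ) * ((n : ℝ) ^ (501 / 500 : ℝ) * (n : ℝ) ^ (1 / 500 : ℝ)) := by
      rw [← Real.rpow_add hnr0, ← Real.rpow_add hnr0]
      norm_num
    rw [e3]
    have e4 : 0 < (n : ℝ) ^ (501 / 500 : ℝ) := by positivity
    have e5 : 0 < (n : ℝ) ^ (1 / 500 : ℝ) := by positivity
    calc 2 * (n : ℝ) ^ (501 / 500 : ℝ) * b ≤
          2 * (n : ℝ) ^ (501 / 500 : ℝ) * (a * (n : ℝ) ^ (1 / 500 : ℝ)) :=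
          mul_le_mul_of_nonneg_left hb (by positivity)
      _ = 2 * ((n : ℝ) ^ (501 / 500 : ℝ) * (n : ℝ) ^ (1 / 500 : ℝ) * a) := by ring
      _ ≤ (n : ℝ) ^ (1 / 1500 : ℝ) * ((n : ℝ) ^ (501 / 500 : ℝ) * (n : ℝ) ^ (1 / 500 : ℝ) * a) :=
          mul_le_mul_of_nonneg_right e2 (by positivity)
      _ = _ := by ring
  have hlr : (n : ℝ) ^ (-(1 / 60) : ℝ) * ((n : ℝ) ^ (499 / 500 : ℝ) / b) =
      (n : ℝ) ^ (368 / 375 : ℝ) / b := by
    rw [← mul_div_assoc, ← Real.rpow_add hnr0]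
    norm_num
  obtain ⟨-, -, hnic, -, -⟩ := h1 b h (STR.bd_zero hh)
  have hA : 0 ≤ (1 + ε) * Ar m G n :=
    mul_nonneg (by linarith) (mul_nonneg (Real.rpow_nonneg hnr0.le _) hG.le)
  have hmain := h4 χ₀ m n B ((n : ℝ) ^ (499 / 500 : ℝ) / b) ((n : ℝ) ^ (1 / 150 : ℝ))
    ((1 + ε) * Ar m G n) ((n : ℝ) ^ (-(1 / 60) : ℝ)) hχ hm hnpos hr hA (by positivity)
    (fun ψ hψ g hg => h3 n hn0 ψ hψ g hg) ψ (STR.cut_mono hψ hout) (Fi h) hnic.1 (nr_lt hm1 hnic)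
  rw [hlr] at hmain
  have hTn : Measurable (Tn n h) := (STR.meas_sy n).mul hh.1.continuous.measurable
  refine (mink hm1 (STR.meas_Fi hTn) (STR.meas_So (n := n) hψ hnic.1)).trans (add_le_add ?_ ?_)
  · rw [← root hm1 hA]
    exact ENNReal.rpow_le_rpow hmain (by positivity)
  · refine ENNReal.rpow_le_rpow ?_ (by positivity)
    refine (herr h hh m hm).trans ?_
    have h5 : (C * ((n : ℝ) ^ 1)⁻¹) ^ (2 * m) ≤ 1 := by
      apply Real.rpow_le_one (by positivity) _ (by linarith)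
      rw [pow_one, ← div_eq_mul_inv, div_le_one hnr0]
      exact hnC
    calc ENNReal.ofReal ((C * ((n : ℝ) ^ 1)⁻¹) ^ (2 * m)) * Nr m (Fi h) ≤ 1 * Nr m (Fi h) := by
          refine mul_le_mul_left ?_ _
          exact ENNReal.ofReal_le_one.2 h5
      _ = Nr m (Fi h) := one_mul _

end Pool.Agent.H45.PB.STR
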